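import Pool.Agent.Helper94.Tri.Main

/-!
# Tricolor percolation: the symmetric point is in the extended phase

Cells of the tessellation of `ℝ³` by truncated octahedra are the points of
`2 ℤ³ ∪ (2 ℤ³ + (1,1,1))`; edges are triples and vertices are quadruples of mutually adjacent
cells. With independent uniform colours the probability that a tricolor path joins the inner to the
outer boundary of the annulus `A_n` is at least `1 / (2 * 23 ^ 6)` for every `n ≥ 1`.
-/

namespace Pool.Agent.Results.MP_3fb350_pr.SymmetricExtended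

open MeasureTheory

/-- The points of `2 ℤ³ ∪ (2 ℤ³ + (1,1,1))`. -/
def IsCell (v : Fin 3 → ℤ) : Prop :=
  ∃ w : Fin 3 → ℤ, (v = fun i => 2 * w i) ∨ (v = fun i => 2 * w i + 1)

/-- The cells. -/
abbrev Cell : Type := {v : Fin 3 → ℤ // IsCell v}

/-- Adjacency of cells: `w - v` is `(±2,0,0)`, `(0,±2,0)`, `(0,0,±2)` or `(±1,±1,±1)`. -/
def Adj (v w : Cell) : Prop :=
  (∃ i, (w.1 i - v.1 i = 2 ∨ w.1 i - v.1 i = -2) ∧ ∀ j, j ≠ i → w.1 j - v.1 j = 0) ∨
    ∀ i, w.1 i - v.1 i = 1 ∨ w.1 i - v.1 i = -1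

/-- The edges of the tessellation, as triples of mutually adjacent cells. -/
def IsEdge (T : Finset Cell) : Prop := T.card = 3 ∧ ∀ v ∈ T, ∀ w ∈ T, v ≠ w → Adj v w

/-- The vertices of the tessellation, as quadruples of mutually adjacent cells. -/
def IsVertex (Q : Finset Cell) : Prop := Q.card = 4 ∧ ∀ v ∈ Q, ∀ w ∈ Q, v ≠ w → Adj v w

/-- `T` is a tricolor edge of the colouring `c`. -/
def Tricolor (c : Cell → Fin 3) (T : Finset Cell) : Prop :=
  IsEdge T ∧ ∀ v ∈ T, ∀ w ∈ T, v ≠ w → c v ≠ c w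

/-- The annulus `A_n`. -/
def annulus (n : ℕ) : Set Cell := {v | (∀ i, |v.1 i| ≤ 3 * n) ∧ ∃ i, n < |v.1 i|}

/-- `S` and `T` are joined by a path of tricolor edges inside `A_n`; consecutive edges of the path
share a vertex of the tessellation. -/
def Joined (c : Cell → Fin 3) (n : ℕ) : Finset Cell → Finset Cell → Prop :=
  Relation.ReflTransGen fun S T =>
    Tricolor c T ∧ (T : Set Cell) ⊆ annulus n ∧ ∃ Q, IsVertex Q ∧ S ⊆ Q ∧ T ⊆ Q

/-- The event `E_n`: a path of tricolor edges inside `A_n` joins a vertex on the inner boundary of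
`A_n` to a vertex on its outer boundary. -/
def E (n : ℕ) : Set (Cell → Fin 3) :=
  {c | ∃ S T : Finset Cell, Tricolor c S ∧ (S : Set Cell) ⊆ annulus n ∧ Joined c n S T ∧
    (∃ Q, IsVertex Q ∧ S ⊆ Q ∧ ∃ v ∈ Q, ∀ i, |v.1 i| ≤ n) ∧
    ∃ Q, IsVertex Q ∧ T ⊆ Q ∧ ∃ v ∈ Q, ∃ i, 3 * n < |v.1 i|}

/-- The law of independent colours with distribution `p`. -/
noncomputable def law (p : PMF (Fin 3)) : Measure (Cell → Fin 3) :=
  Measure.infinitePi fun _ => p.toMeasure

/-- The extended phase: `inf_n P_p(E_n) > 0`. -/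
def Extended (p : PMF (Fin 3)) : Prop := ∃ ε : ℝ, 0 < ε ∧ ∀ n : ℕ, 1 ≤ n → ε ≤ (law p).real (E n)

/-! ## The bridge -/

open Pool.Agent.Helper94.Tri

/-- Kuhn coordinates. -/
def ph (x : V) : Cell :=
  ⟨![-x.1 + x.2.1 + x.2.2, x.1 - x.2.1 + x.2.2, x.1 + x.2.1 - x.2.2], by
    rcases Int.even_or_odd' (x.1 + x.2.1 + x.2.2) with ⟨k, hk | hk⟩
    · refine ⟨![k - x.1, k - x.2.1, k - x.2.2], Or.inl ?_⟩
      funext i
      fin_cases i <;> simp <;> linarith
    · refine ⟨![k - x.1, k - x.2.1, k - x.2.2], Or.inr ?_⟩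
      funext i
      fin_cases i <;> simp <;> linarith⟩

theorem ph_inj : Function.Injective ph := by
  intro x y h
  have h' := congrArg Subtype.val h
  have h0 := congrFun h' 0
  have h1 := congrFun h' 1
  have h2 := congrFun h' 2
  simp only [ph, Matrix.cons_val_zero, Matrix.cons_val_one, Matrix.cons_val] at h0 h1 h2
  refine Prod.ext ?_ (Prod.ext ?_ ?_) <;> linarith

theorem adj_of_step {p q : V} (h : Step p q) : Adj (ph p) (ph q) := by
  obtain ⟨⟨h1, h2, h3⟩, hne⟩ := h
  obtain ⟨p1, p2, p3⟩ := p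
  obtain ⟨q1, q2, q3⟩ := q
  simp only [Prod.fst_sub, Prod.snd_sub] at h1 h2 h3
  have hne' : ¬ (p1 = q1 ∧ p2 = q2 ∧ p3 = q3) := by
    rintro ⟨rfl, rfl, rfl⟩; exact hne rfl
  unfold Adj ph
  simp only [Fin.exists_fin_succ, Fin.forall_fin_succ]
  simp
  omega

theorem adj_symm {v w : Cell} (h : Adj v w) : Adj w v := by
  rcases h with ⟨i, hi, hj⟩ | h
  · exact Or.inl ⟨i, by omega, fun j hji => by have := hj j hji; omega⟩
  · exact Or.inr fun i => by have := h i; omega

theorem isVertex_of_tet {p q r s : V} (h : Tet p q r s) :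
    IsVertex ({ph p, ph q, ph r, ph s} : Finset Cell) := by
  obtain ⟨hpq, hpr, hps, hqr, hqs, hrs⟩ := h
  have npq : ph p ≠ ph q := fun e => hpq.2 (ph_inj e)
  have npr : ph p ≠ ph r := fun e => hpr.2 (ph_inj e)
  have nps : ph p ≠ ph s := fun e => hps.2 (ph_inj e)
  have nqr : ph q ≠ ph r := fun e => hqr.2 (ph_inj e)
  have nqs : ph q ≠ ph s := fun e => hqs.2 (ph_inj e)
  have nrs : ph r ≠ ph s := fun e => hrs.2 (ph_inj e)
  refine ⟨?_, ?_⟩
  · rw [Finset.card_insert_of_notMem (by simp [npq, npr, nps]),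
      Finset.card_insert_of_notMem (by simp [nqr, nqs]),
      Finset.card_insert_of_notMem (by simp [nrs]), Finset.card_singleton]
  · have a1 := adj_of_step hpq
    have a2 := adj_of_step hpr
    have a3 := adj_of_step hps
    have a4 := adj_of_step hqr
    have a5 := adj_of_step hqs
    have a6 := adj_of_step hrs
    intro v hv w hw hne
    simp only [Finset.mem_insert, Finset.mem_singleton] at hv hw
    rcases hv with rfl | rfl | rfl | rfl <;> rcases hw with rfl | rfl | rfl | rfl <;>
      first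
      | exact absurd rfl hne
      | assumption
      | exact adj_symm (by assumption)

/-- the cells of a triangle -/
def cells (t : T3) : Finset Cell := {ph t.1, ph t.2.1, ph t.2.2}

theorem tricolor_of_Tc {c : Cell → Fin 3} {t : T3} (h : Tc (fun x => c (ph x)) t) :
    Tricolor c (cells t) := by
  obtain ⟨⟨h1, h2, h3⟩, c1, c2, c3⟩ := h
  have n1 : ph t.1 ≠ ph t.2.1 := fun e => h1.2 (ph_inj e)
  have n2 : ph t.2.1 ≠ ph t.2.2 := fun e => h2.2 (ph_inj e)
  have n3 : ph t.1 ≠ ph t.2.2 := fun e => h3.2 (ph_inj e)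
  have a1 := adj_of_step h1
  have a2 := adj_of_step h2
  have a3 := adj_of_step h3
  refine ⟨⟨?_, ?_⟩, ?_⟩
  · unfold cells
    rw [Finset.card_insert_of_notMem (by simp [n1, n3]),
      Finset.card_insert_of_notMem (by simp [n2]), Finset.card_singleton]
  · intro v hv w hw hne
    simp only [cells, Finset.mem_insert, Finset.mem_singleton] at hv hw
    rcases hv with rfl | rfl | rfl <;> rcases hw with rfl | rfl | rfl <;>
      first
      | exact absurd rfl hne
      | assumption
      | exact adj_symm (by assumption)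
  · intro v hv w hw hne
    simp only [cells, Finset.mem_insert, Finset.mem_singleton] at hv hw
    rcases hv with rfl | rfl | rfl <;> rcases hw with rfl | rfl | rfl <;>
      first
      | exact absurd rfl hne
      | assumption
      | exact Ne.symm (by assumption)

theorem cells_subset_of_isFace {t : T3} {p q r s : V} (h : IsFace t p q r s) :
    cells t ⊆ ({ph p, ph q, ph r, ph s} : Finset Cell) := by
  rcases h with rfl | rfl | rfl | rfl <;>
    · intro v hv
      simp only [cells, Finset.mem_insert, Finset.mem_singleton] at hv ⊢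
      tauto

theorem rho_le_iff (x : V) (m : ℤ) : rho x ≤ m ↔ ∀ i, |(ph x).1 i| ≤ m := by
  unfold rho ph
  simp only [Fin.forall_fin_succ]
  simp

theorem lt_rho_iff (x : V) (m : ℤ) : m < rho x ↔ ∃ i, m < |(ph x).1 i| := by
  have := rho_le_iff x m
  rw [← not_le, this]
  push Not
  rfl

theorem ann_iff (x : V) (n : ℕ) : Ann 0 n x ↔ ph x ∈ annulus n := by
  unfold Ann annulus
  rw [sub_zero, Set.mem_ofPred_eq, rho_le_iff, lt_rho_iff, and_comm]

theorem cells_subset_annulus {t : T3} {n : ℕ} (h : VIn (Ann 0 n) t) :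
    (cells t : Set Cell) ⊆ annulus n := by
  obtain ⟨h1, h2, h3⟩ := h
  intro v hv
  simp only [cells, Finset.coe_insert, Finset.coe_singleton, Set.mem_insert_iff,
    Set.mem_singleton_iff] at hv
  rcases hv with rfl | rfl | rfl
  · exact (ann_iff _ _).1 h1
  · exact (ann_iff _ _).1 h2
  · exact (ann_iff _ _).1 h3

theorem mem_E_of_cross {c : Cell → Fin 3} {n : ℕ} (h : Cross (fun x => c (ph x)) 0 n) :
    c ∈ E n := by
  obtain ⟨a, b, ha, haA, hin, hout, hab⟩ := h
  refine ⟨cells a, cells b, tricolor_of_Tc ha, cells_subset_annulus haA, ?_, ?_, ?_⟩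
  · clear hout
    unfold Joined
    induction hab with
    | refl => exact Relation.ReflTransGen.refl
    | tail _ h2 ih =>
      obtain ⟨_, ht, _, htA, p, q, r, u, hT, hs, ht'⟩ := h2
      exact ih.tail
        ⟨tricolor_of_Tc ht, cells_subset_annulus htA, _, isVertex_of_tet hT,
          cells_subset_of_isFace hs, cells_subset_of_isFace ht'⟩
  · obtain ⟨p, q, r, s, hT, hf, hv⟩ := hin
    refine ⟨_, isVertex_of_tet hT, cells_subset_of_isFace hf, ?_⟩
    simp only [sub_zero, rho_le_iff] at hv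
    rcases hv with hv | hv | hv | hv
    · exact ⟨ph p, by simp, hv⟩
    · exact ⟨ph q, by simp, hv⟩
    · exact ⟨ph r, by simp, hv⟩
    · exact ⟨ph s, by simp, hv⟩
  · obtain ⟨p, q, r, s, hT, hf, hv⟩ := hout
    refine ⟨_, isVertex_of_tet hT, cells_subset_of_isFace hf, ?_⟩
    simp only [sub_zero, lt_rho_iff] at hv
    rcases hv with hv | hv | hv | hv
    · exact ⟨ph p, by simp, hv⟩
    · exact ⟨ph q, by simp, hv⟩
    · exact ⟨ph r, by simp, hv⟩
    · exact ⟨ph s, by simp, hv⟩

/-- the colouring in Kuhn coordinates -/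
def pull (c : Cell → Fin 3) : Col := fun x => c (ph x)

theorem measurable_pull : Measurable pull :=
  measurable_pi_lambda _ fun x => measurable_pi_apply (ph x)

theorem law_map : (law (PMF.uniformOfFintype (Fin 3))).map pull = mu :=
  Measure.map_infinitePi_infinitePi_of_inj
    (P := fun _ : Cell => (PMF.uniformOfFintype (Fin 3)).toMeasure) ph_inj

instance (p : PMF (Fin 3)) : IsProbabilityMeasure (law p) := by
  unfold law
  infer_instance

/-- **Tricolor percolation at the symmetric point.** With independent uniform colours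
`P(E_n) ≥ 1 / (2 * 23 ^ 6)` for all `n ≥ 1`; in particular the symmetric point is in the extended
phase. -/
theorem result : (∀ n : ℕ, 1 ≤ n →
      (1 / (2 * 23 ^ 6) : ℝ) ≤ (law (PMF.uniformOfFintype (Fin 3))).real (E n)) ∧
    Extended (PMF.uniformOfFintype (Fin 3)) := by
  have key : ∀ n : ℕ, 1 ≤ n →
      (1 / (2 * 23 ^ 6) : ℝ) ≤ (law (PMF.uniformOfFintype (Fin 3))).real (E n) := by
    intro n hn
    refine (cross_lower hn).trans ?_
    have hm : MeasurableSet {c : Col | Cross c 0 n} := by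
      obtain ⟨S, _, hS⟩ := depOn_cross_ann 0 n
      exact measurableSet_of_depOn hS
    rw [← law_map]
    unfold Measure.real
    refine ENNReal.toReal_mono (measure_ne_top _ _) ?_
    rw [Measure.map_apply measurable_pull hm]
    refine measure_mono fun c hc => ?_
    exact mem_E_of_cross hc
  exact ⟨key, 1 / (2 * 23 ^ 6), by norm_num, key⟩

end Pool.Agent.Results.MP_3fb350_pr.SymmetricExtended
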